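import Pool.Agent.Q186.Hyp.Brg

/-!
# The polynomials `P (z ^ n)`
-/

set_option autoImplicit false

open Set Filter Topology Polynomial

namespace Pool.Agent.Q186.Hyp

open Pool.Agent.H762R2.Rt Pool.Agent.TH864.ZO

/-- `v` is a critical value of the polynomials `P (z ^ n)`, `n ≥ 2`. -/
def CriticalValue (P : ℂ[X]) (v : ℂ) : Prop :=
  v = P.eval 0 ∨ ∃ y : ℂ, (derivative P).eval y = 0 ∧ v = P.eval y

/-- `x` is a root of unity. -/
def RootOfUnity (x : ℂ) : Prop := ∃ k : ℕ, 0 < k ∧ x ^ k = 1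

/-- The orbit of some critical value of `P (z ^ n)` consists of roots of unity and contains no
critical point. -/
def Resonant (P : ℂ[X]) (n : ℕ) : Prop :=
  ∃ v : ℂ, CriticalValue P v ∧ ∀ j : ℕ, RootOfUnity ((map (expand ℂ n P))^[j] v) ∧
    (derivative P).eval (((map (expand ℂ n P))^[j] v) ^ n) ≠ 0

/-- The orbit of some critical value leaves the roots of unity at a point of the unit circle whose
image has distance at most `δ` from the unit circle. -/
def Exceptional (P : ℂ[X]) (δ : ℝ) (n : ℕ) : Prop :=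
  ∃ v : ℂ, CriticalValue P v ∧ ∃ j : ℕ, (∀ i < j, RootOfUnity ((map (expand ℂ n P))^[i] v)) ∧
    ‖(map (expand ℂ n P))^[j] v‖ = 1 ∧ ¬ RootOfUnity ((map (expand ℂ n P))^[j] v) ∧
    |‖(map (expand ℂ n P))^[j + 1] v‖ - 1| ≤ δ

theorem map_eq_st (P : ℂ[X]) (n : ℕ) : map (expand ℂ n P) = st P 1 n 1 := by
  funext x
  simp [map, st, expand_eval]

theorem wro_one (P : ℂ[X]) : wro P 1 = derivative P := by simp [wro]

theorem marked_iff {P : ℂ[X]} {D : ℕ} (hD : 0 < D) (v : ℂ) :
    Marked P 1 D v ↔ CriticalValue P v := by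
  unfold Marked CriticalValue
  rw [wro_one]
  have h1 : (1 : ℂ[X]).coeff D = 0 := by
    rw [coeff_one, if_neg]; omega
  simp [h1]

theorem res_iff {P : ℂ[X]} {D : ℕ} (hD : 0 < D) (n : ℕ) :
    Res P 1 D n ↔ Resonant P n := by
  unfold Res Resonant
  simp only [marked_iff hD, wro_one, map_eq_st]
  rfl

theorem exc_iff {P : ℂ[X]} {D : ℕ} (hD : 0 < D) (δ : ℝ) (n : ℕ) :
    Exc P 1 D δ n ↔ Exceptional P δ n := by
  unfold Exc Exceptional
  simp only [marked_iff hD, map_eq_st, Function.iterate_succ_apply']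
  have h1 : ∀ x : ℂ, st P 1 n 1 x = P.eval (x ^ n) := fun x => by simp [st]
  simp only [h1, eval_one, norm_one]
  rfl

theorem natDegree_expand_ge {P : ℂ[X]} (hP : 1 ≤ P.natDegree) {n : ℕ} (hn : 2 ≤ n) :
    2 ≤ (expand ℂ n P).natDegree := by
  rw [natDegree_expand]
  nlinarith

theorem hyp_expand {P : ℂ[X]} (hP : 1 ≤ P.natDegree) {n : ℕ} (hn : 2 ≤ n) :
    Hyp (expand ℂ n P) (expand ℂ n 1) ↔ Hyperbolic (expand ℂ n P) := by
  rw [map_one]
  exact hyp_iff (natDegree_expand_ge hP hn)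

/-- The zero-one law for `P (z ^ n)`. -/
theorem law {P : ℂ[X]} (hP : 1 ≤ P.natDegree) (hne : ∃ u : ℂ, ‖u‖ = 1 ∧ ‖P.eval u‖ ≠ 1) :
    ∃ M K n₀ : ℕ, ∃ C : ℝ, 0 < M ∧
      (∀ n m : ℕ, n ≡ m [MOD M] → (Resonant P n ↔ Resonant P m)) ∧
      (∀ n, n₀ ≤ n → Resonant P n → ¬ Hyperbolic (expand ℂ n P)) ∧
      (∀ n, n₀ ≤ n → ¬ Resonant P n → ¬ Exceptional P (C * (Real.log n / n)) n →
        Hyperbolic (expand ℂ n P)) ∧
      (∀ L : ℕ, ∃ N₀ : ℕ, ∀ N, N₀ ≤ N →
        ({n : ℕ | Exceptional P (C * (Real.log n / n)) n} ∩ Set.Ico N (N + L)).ncard ≤ K) ∧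
      Tendsto (fun N : ℕ => (({n : ℕ | Hyperbolic (expand ℂ n P)} ∩ Set.Iio N).ncard : ℝ) / N)
        atTop (𝓝 (({a | a < M ∧ ¬ Resonant P a}.ncard : ℝ) / M)) := by
  have hD : P.natDegree = max P.natDegree (1 : ℂ[X]).natDegree := by simp
  have hD1 : 0 < P.natDegree := hP
  obtain ⟨M, K, n₀, C, hM, h1, h2, h3, h4, -⟩ := zero_one (P := P) (Q := 1)
    isCoprime_one_right hD hD1 (by simpa using hne)
  simp only [res_iff hD1, exc_iff hD1] at h1 h2 h3 h4
  have h2' : ∀ n, max n₀ 2 ≤ n → Resonant P n → ¬ Hyperbolic (expand ℂ n P) := by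
    intro n hn hr hh
    exact h2 n (le_of_max_le_left hn) hr ((hyp_expand hP (le_of_max_le_right hn)).2 hh)
  have h3' : ∀ n, max n₀ 2 ≤ n → ¬ Resonant P n → ¬ Exceptional P (C * (Real.log n / n)) n →
      Hyperbolic (expand ℂ n P) := by
    intro n hn hr he
    exact (hyp_expand hP (le_of_max_le_right hn)).1 (h3 n (le_of_max_le_left hn) hr he)
  refine ⟨M, K, max n₀ 2, C, hM, h1, h2', h3', h4, ?_⟩
  refine density_periodic hM (p := fun n => ¬ Resonant P n)
    (S := {n : ℕ | Exceptional P (C * (Real.log n / n)) n}) (n₀ := max n₀ 2)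
    (fun n m h => not_congr (h1 n m h)) (density_of_window h4) ?_
  intro n hn hS
  exact ⟨fun h5 h6 => h2' n hn h6 h5, fun h5 => h3' n hn h5 hS⟩

/-- A polynomial of constant modulus one on the unit circle is a monomial. -/
theorem monomial_of {P : ℂ[X]} (h : ∀ u : ℂ, ‖u‖ = 1 → ‖P.eval u‖ = 1) :
    ∃ c : ℂ, ‖c‖ = 1 ∧ P = C c * X ^ P.natDegree := by
  set S : ℂ[X] := (P.map (starRingEnd ℂ)).reverse with hS
  have hdeg : (P.map (starRingEnd ℂ)).natDegree = P.natDegree := natDegree_map _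
  have hev : ∀ u : ℂ, ‖u‖ = 1 → (P * S - X ^ P.natDegree).eval u = 0 := by
    intro u hu
    have hu0 : u ≠ 0 := fun h0 => by rw [h0, norm_zero] at hu; exact zero_ne_one hu
    have h1 : u⁻¹ = (starRingEnd ℂ) u := by
      rw [Complex.inv_def, Complex.normSq_eq_norm_sq, hu]; simp
    let _ : Invertible u⁻¹ := invertibleOfNonzero (inv_ne_zero hu0)
    have h3 := eval₂_reverse_mul_pow (RingHom.id ℂ) u⁻¹ (P.map (starRingEnd ℂ))
    rw [invOf_eq_inv, inv_inv, hdeg, ← hS] at h3
    change S.eval u * _ = (P.map (starRingEnd ℂ)).eval u⁻¹ at h3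
    have h4 : (P.map (starRingEnd ℂ)).eval u⁻¹ = (starRingEnd ℂ) (P.eval u) := by
      rw [h1, eval_map, eval₂_hom]
    rw [h4, inv_pow] at h3
    have h5 : S.eval u = (starRingEnd ℂ) (P.eval u) * u ^ P.natDegree := by
      rw [← h3, mul_assoc, inv_mul_cancel₀ (pow_ne_zero _ hu0), mul_one]
    rw [eval_sub, eval_mul, h5, ← mul_assoc, Complex.mul_conj, Complex.normSq_eq_norm_sq, h u hu]
    simp
  have hzero : P * S - X ^ P.natDegree = 0 := by
    refine eq_zero_of_infinite_isRoot _ ?_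
    have h1 : (Metric.sphere (0 : ℂ) 1).Infinite := by
      have h2 : (Set.range fun t : ℝ => Complex.exp (t * Complex.I)).Infinite := by
        refine Set.Infinite.mono (s := (fun t : ℝ => Complex.exp (t * Complex.I)) '' Set.Ioo 0 1)
          (Set.image_subset_range _ _) ?_
        refine (Set.Ioo_infinite zero_lt_one).image ?_
        intro a ha b hb hab
        simp only [] at hab
        have h3 := congrArg Complex.im hab
        have h4 := congrArg Complex.re hab
        rw [Complex.exp_ofReal_mul_I_re, Complex.exp_ofReal_mul_I_re] at h4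
        exact Real.injOn_cos ⟨ha.1.le, by linarith [ha.2, Real.pi_gt_three]⟩
          ⟨hb.1.le, by linarith [hb.2, Real.pi_gt_three]⟩ h4
      refine h2.mono ?_
      rintro _ ⟨t, rfl⟩
      simp [Complex.norm_exp_ofReal_mul_I]
    refine h1.mono fun u hu => ?_
    exact hev u (by simpa using hu)
  have hdvd : P ∣ X ^ P.natDegree := ⟨S, (sub_eq_zero.1 hzero).symm⟩
  obtain ⟨i, hi, hass⟩ := (dvd_prime_pow prime_X _).1 hdvd
  obtain ⟨c, hc⟩ := hass.symm
  obtain ⟨b, hb, hbc⟩ := Polynomial.isUnit_iff.1 c.isUnit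
  rw [← hbc] at hc
  have hb0 : b ≠ 0 := hb.ne_zero
  have hP : P = C b * X ^ i := by rw [← hc]; ring
  have hi' : P.natDegree = i := by rw [hP, natDegree_C_mul_X_pow _ _ hb0]
  refine ⟨b, ?_, by rw [hi']; exact hP⟩
  have h1 := h 1 (by simp)
  rw [hP] at h1
  simpa using h1

theorem hyp_monomial {c : ℂ} {m : ℕ} (hm : 2 ≤ m) : Hyperbolic (C c * X ^ m) := by
  intro z hz
  right
  have hfix : ∀ k : ℕ, (map (C c * X ^ m))^[k] 0 = 0 := by
    intro k
    refine Function.iterate_fixed ?_ k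
    simp [map, show m ≠ 0 by omega]
  have hd : deriv ((map (C c * X ^ m))^[1]) 0 = 0 := by
    rw [Function.iterate_one]
    show deriv (fun w => (C c * X ^ m).eval w) 0 = 0
    rw [Polynomial.deriv]
    simp [derivative_X_pow, show m - 1 ≠ 0 by omega]
  by_cases hc : c = 0
  · subst hc
    refine ⟨1, one_pos, 0, hfix 1, by rw [hd]; simp, ?_⟩
    refine (tendsto_const_nhds (x := (0 : ℂ))).congr' ?_
    filter_upwards [eventually_ge_atTop 1] with k hk
    obtain ⟨j, rfl⟩ := Nat.exists_eq_add_of_le hk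
    rw [one_mul, add_comm, Function.iterate_succ_apply']
    simp [map]
  · have hz0 : z = 0 := by
      simp only [derivative_mul, derivative_C, derivative_X_pow, zero_mul, zero_add, eval_mul,
        eval_C, eval_pow, eval_X, mul_eq_zero, pow_eq_zero_iff', hc,
        Nat.cast_eq_zero, false_or] at hz
      rcases hz with h1 | h1
      · omega
      · exact h1.1
    subst hz0
    refine ⟨1, one_pos, 0, hfix 1, by rw [hd]; simp, ?_⟩
    simp only [hfix]
    exact tendsto_const_nhds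

theorem expand_monomial (c : ℂ) (d n : ℕ) :
    expand ℂ n (C c * X ^ d) = C c * X ^ (n * d) := by
  rw [map_mul, expand_C, map_pow, expand_X, ← pow_mul]

/-- The monomials. -/
theorem hyp_circle {P : ℂ[X]} (hP : 1 ≤ P.natDegree) (h : ∀ u : ℂ, ‖u‖ = 1 → ‖P.eval u‖ = 1)
    {n : ℕ} (hn : 2 ≤ n) : Hyperbolic (expand ℂ n P) := by
  obtain ⟨c, hc, hPc⟩ := monomial_of h
  rw [hPc, expand_monomial]
  exact hyp_monomial (by nlinarith)

/-- The set of exponents. -/
def HypSet (P : ℂ[X]) : Set ℕ := {n : ℕ | Hyperbolic (expand ℂ n P)}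

theorem density_one_of {H : Set ℕ} {n₀ : ℕ} (h : ∀ n, n₀ ≤ n → n ∈ H) :
    Tendsto (fun N : ℕ => ((H ∩ Set.Iio N).ncard : ℝ) / N) atTop (𝓝 1) := by
  have h1 := density_periodic (p := fun _ => True) (M := 1) one_pos (fun _ _ _ => Iff.rfl)
    (H := H) (S := ∅) (n₀ := n₀) (by simp) (fun n hn _ => ⟨fun _ => trivial, fun _ => h n hn⟩)
  have h2 : {a : ℕ | a < 1 ∧ True} = {0} := by ext a; simp
  rw [h2, Set.ncard_singleton] at h1
  simpa using h1

/-- The density exists and is rational. -/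
theorem density {P : ℂ[X]} (hP : 1 ≤ P.natDegree) :
    ∃ q : ℚ, Tendsto (fun N : ℕ => (({n : ℕ | Hyperbolic (expand ℂ n P)} ∩
      Set.Iio N).ncard : ℝ) / N) atTop (𝓝 (q : ℝ)) := by
  by_cases hne : ∃ u : ℂ, ‖u‖ = 1 ∧ ‖P.eval u‖ ≠ 1
  · obtain ⟨M, K, n₀, C, hM, -, -, -, -, h⟩ := law hP hne
    refine ⟨(({a | a < M ∧ ¬ Resonant P a}.ncard : ℚ)) / M, ?_⟩
    push_cast
    exact h
  · push Not at hne
    refine ⟨1, ?_⟩
    rw [Rat.cast_one]
    exact density_one_of (n₀ := 2) fun n hn => hyp_circle hP hne hn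

/-- Density one without roots of unity. -/
theorem density_one {P : ℂ[X]} (hP : 1 ≤ P.natDegree)
    (hv : ∀ v : ℂ, CriticalValue P v → ¬ RootOfUnity v) :
    Tendsto (fun N : ℕ => (({n : ℕ | Hyperbolic (expand ℂ n P)} ∩
      Set.Iio N).ncard : ℝ) / N) atTop (𝓝 1) := by
  by_cases hne : ∃ u : ℂ, ‖u‖ = 1 ∧ ‖P.eval u‖ ≠ 1
  · obtain ⟨M, K, n₀, C, hM, -, -, -, -, h⟩ := law hP hne
    have h1 : ∀ n, ¬ Resonant P n := by
      rintro n ⟨v, hv1, hv2⟩
      exact hv v hv1 (hv2 0).1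
    have h2 : {a : ℕ | a < M ∧ ¬ Resonant P a} = ↑(Finset.range M) := by
      ext a; simp [h1]
    rw [h2, Set.ncard_coe_finset, Finset.card_range, div_self (by exact_mod_cast hM.ne')] at h
    exact h
  · push Not at hne
    exact density_one_of (n₀ := 2) fun n hn => hyp_circle hP hne hn

/-- The example: `2 z ^ 2 - 2 z - 1`. -/
noncomputable def ex : ℂ[X] := C 2 * X ^ 2 - C 2 * X - 1

theorem ex_natDegree : ex.natDegree = 2 := by
  unfold ex
  compute_degree!

theorem ex_resonant (n : ℕ) : Resonant ex n ↔ Even n := by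
  have hev : ∀ x : ℂ, ex.eval x = 2 * x ^ 2 - 2 * x - 1 := by intro x; simp [ex]
  have hder : ∀ x : ℂ, (derivative ex).eval x = 4 * x - 2 := by
    intro x
    simp only [ex, derivative_sub, derivative_mul, derivative_C, derivative_X_pow, derivative_X,
      derivative_one, eval_sub, eval_add, eval_mul, eval_C, eval_X, eval_pow, eval_zero]
    norm_num
    ring
  have hru : ∀ x : ℂ, RootOfUnity x → ‖x‖ = 1 := by
    rintro x ⟨k, hk, h⟩
    exact Complex.norm_eq_one_of_pow_eq_one h (by omega)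
  have hmap : ∀ x : ℂ, map (expand ℂ n ex) x = 2 * (x ^ n) ^ 2 - 2 * x ^ n - 1 := by
    intro x
    rw [← hev]
    simp [map, expand_eval]
  constructor
  · rintro ⟨v, hv, hj⟩
    by_contra hodd
    rw [Nat.not_even_iff_odd] at hodd
    have hv1 : v = -1 := by
      rcases hv with h | ⟨y, hy, h⟩
      · rw [h, hev]; norm_num
      · exfalso
        rw [hder] at hy
        have hy2 : y = 1 / 2 := by linear_combination hy / 4
        rw [hev, hy2] at h
        have h1 := hru v (hj 0).1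
        have h2 : v = ((-3 / 2 : ℝ) : ℂ) := by rw [h]; push_cast; norm_num
        rw [h2, Complex.norm_real, Real.norm_eq_abs, abs_of_neg (by norm_num)] at h1
        norm_num at h1
    have h1 := hru _ (hj 1).1
    rw [Function.iterate_one, hmap, hv1, hodd.neg_one_pow] at h1
    have h2 : (2 * (-1 : ℂ) ^ 2 - 2 * (-1) - 1) = ((3 : ℝ) : ℂ) := by push_cast; norm_num
    rw [h2, Complex.norm_real, Real.norm_eq_abs, abs_of_pos (by norm_num)] at h1
    norm_num at h1
  · intro heven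
    have hfix : ∀ j : ℕ, (map (expand ℂ n ex))^[j] (-1) = -1 := by
      intro j
      refine Function.iterate_fixed ?_ j
      rw [hmap, heven.neg_one_pow]
      norm_num
    refine ⟨-1, Or.inl (by rw [hev]; norm_num), fun j => ?_⟩
    rw [hfix]
    refine ⟨⟨2, by norm_num, by norm_num⟩, ?_⟩
    rw [hder, heven.neg_one_pow]
    norm_num

theorem ex_density :
    Tendsto (fun N : ℕ => (({n : ℕ | Hyperbolic (expand ℂ n ex)} ∩
      Set.Iio N).ncard : ℝ) / N) atTop (𝓝 (1 / 2)) := by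
  have hne : ∃ u : ℂ, ‖u‖ = 1 ∧ ‖ex.eval u‖ ≠ 1 := by
    refine ⟨-1, by simp, ?_⟩
    have h2 : ex.eval (-1) = ((3 : ℝ) : ℂ) := by simp [ex]; norm_num
    rw [h2, Complex.norm_real, Real.norm_eq_abs, abs_of_pos (by norm_num)]
    norm_num
  obtain ⟨M, K, n₀, C, hM, h1, h2, h3, h4, -⟩ := law (by rw [ex_natDegree]; norm_num) hne
  have h5 := density_periodic (M := 2) two_pos (p := fun n => ¬ Even n)
    (H := {n : ℕ | Hyperbolic (expand ℂ n ex)})
    (S := {n : ℕ | Exceptional ex (C * (Real.log n / n)) n}) (n₀ := n₀)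
    (fun n m h => by
      rw [Nat.even_iff, Nat.even_iff]
      have : n % 2 = m % 2 := h
      rw [this]) (density_of_window h4) (by
      intro n hn hS
      constructor
      · intro h6 h7
        exact h2 n hn ((ex_resonant n).2 h7) h6
      · intro h6
        exact h3 n hn (fun h7 => h6 ((ex_resonant n).1 h7)) hS)
  have h6 : {a : ℕ | a < 2 ∧ ¬ Even a} = {1} := by
    ext a
    simp only [Set.mem_ofPred_eq, Set.mem_singleton_iff]
    constructor
    · rintro ⟨ha, hb⟩
      interval_cases a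
      · simp at hb
      · rfl
    · rintro rfl
      exact ⟨by norm_num, by decide⟩
  rw [h6, Set.ncard_singleton] at h5
  simpa using h5

end Pool.Agent.Q186.Hyp
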