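import Pool.Agent.TH864.ZO.ZN

/-!
# Hyperbolic polynomials: planar and spherical definitions agree
-/

set_option autoImplicit false

open Set Filter Topology
open scoped OnePoint

namespace Pool.Agent.Q186.Hyp

open Pool.Agent.H762R2.Rt

/-- The polynomial as a self-map of the plane. -/
def map (T : Polynomial ℂ) : ℂ → ℂ := fun w : ℂ => T.eval w

/-- The orbit of `z` escapes to infinity. -/
def Escapes (T : Polynomial ℂ) (z : ℂ) : Prop :=
  Tendsto (fun k : ℕ => ‖(map T)^[k] z‖) atTop atTop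

/-- The orbit of `z` is attracted by a sink (attracting periodic point) of `T`. -/
def Attracted (T : Polynomial ℂ) (z : ℂ) : Prop :=
  ∃ n : ℕ, 0 < n ∧ ∃ x : ℂ, (map T)^[n] x = x ∧ ‖deriv ((map T)^[n]) x‖ < 1 ∧
    Tendsto (fun k : ℕ => (map T)^[n * k] z) atTop (𝓝 x)

/-- `T` is hyperbolic: every critical point escapes or is attracted by a sink. -/
def Hyperbolic (T : Polynomial ℂ) : Prop :=
  ∀ c : ℂ, (Polynomial.derivative T).eval c = 0 → Escapes T c ∨ Attracted T c

theorem map_diff (T : Polynomial ℂ) : Differentiable ℂ (map T) := T.differentiable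

theorem map_cont (T : Polynomial ℂ) : Continuous (map T) := T.continuous

/-- The escape radius. -/
theorem exists_R {T : Polynomial ℂ} (hT : 2 ≤ T.natDegree) :
    ∃ R : ℝ, 1 ≤ R ∧ ∀ z : ℂ, R ≤ ‖z‖ → 2 * ‖z‖ ≤ ‖map T z‖ := by
  obtain ⟨A, hA⟩ : ∃ A : Polynomial ℂ, T = Polynomial.C (T.coeff 0) + Polynomial.X * A := by
    refine ⟨T.divX, ?_⟩
    rw [add_comm, Polynomial.X_mul, Polynomial.divX_mul_X_add]
  have hdA : 0 < A.degree := by
    rw [← Polynomial.natDegree_pos_iff_degree_pos]
    by_contra h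
    have h0 : A.natDegree = 0 := by omega
    have : T.natDegree ≤ 1 := by
      rw [hA]
      refine (Polynomial.natDegree_add_le _ _).trans ?_
      rw [Polynomial.natDegree_C]
      refine max_le (by norm_num) ?_
      refine (Polynomial.natDegree_mul_le).trans ?_
      rw [h0, Polynomial.natDegree_X]
    omega
  have htend : Tendsto (fun z : ℂ => ‖A.eval z‖) (Bornology.cobounded ℂ) atTop :=
    Polynomial.tendsto_norm_atTop A hdA tendsto_norm_cobounded_atTop
  have h1 := htend.eventually_ge_atTop (2 + ‖T.coeff 0‖)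
  rw [← comap_norm_atTop, eventually_comap] at h1
  obtain ⟨R, hR⟩ := eventually_atTop.1 h1
  refine ⟨max R 1, le_max_right _ _, fun z hz => ?_⟩
  have h2 := hR ‖z‖ ((le_max_left _ _).trans hz) z rfl
  have h3 : 1 ≤ ‖z‖ := (le_max_right _ _).trans hz
  have h4 : map T z = T.coeff 0 + z * A.eval z := by
    show T.eval z = _
    conv_lhs => rw [hA]
    simp
  rw [h4]
  have h5 : ‖z * A.eval z‖ ≤ ‖T.coeff 0 + z * A.eval z‖ + ‖T.coeff 0‖ := by
    have := norm_sub_le (T.coeff 0 + z * A.eval z) (T.coeff 0)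
    simpa using this
  rw [norm_mul] at h5
  have h6 : 0 ≤ ‖T.coeff 0‖ := norm_nonneg _
  nlinarith

theorem iter_ge {T : Polynomial ℂ} {R : ℝ} (hR1 : 1 ≤ R)
    (hR : ∀ z : ℂ, R ≤ ‖z‖ → 2 * ‖z‖ ≤ ‖map T z‖) {z : ℂ} (hz : R ≤ ‖z‖) (k : ℕ) :
    2 ^ k * ‖z‖ ≤ ‖(map T)^[k] z‖ := by
  induction k with
  | zero => simp
  | succ k ih =>
    rw [Function.iterate_succ_apply']
    have h1 : R ≤ ‖(map T)^[k] z‖ := by
      have : (1 : ℝ) ≤ 2 ^ k := one_le_pow₀ (by norm_num)
      nlinarith [norm_nonneg z]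
    have h2 := hR _ h1
    rw [pow_succ]
    linarith

theorem escapes_of {T : Polynomial ℂ} {R : ℝ} (hR1 : 1 ≤ R)
    (hR : ∀ z : ℂ, R ≤ ‖z‖ → 2 * ‖z‖ ≤ ‖map T z‖) {z : ℂ} {j : ℕ}
    (hz : R ≤ ‖(map T)^[j] z‖) : Escapes T z := by
  have h1 : Tendsto (fun k : ℕ => ‖(map T)^[k + j] z‖) atTop atTop := by
    refine tendsto_atTop_mono (f := fun k : ℕ => (2 : ℝ) ^ k) (fun k => ?_)
      (tendsto_pow_atTop_atTop_of_one_lt (by norm_num))
    rw [Function.iterate_add_apply]
    have h2 := iter_ge hR1 hR hz k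
    have h3 : (0 : ℝ) < 2 ^ k := by positivity
    have h4 : 1 ≤ ‖(map T)^[j] z‖ := hR1.trans hz
    nlinarith
  exact (tendsto_add_atTop_iff_nat j).1 h1

/-- A topologically attracting cycle of a polynomial has multiplier of modulus less than one. -/
theorem mult_lt_one {T : Polynomial ℂ} (hT : 2 ≤ T.natDegree) {n : ℕ} (hn : 0 < n) {z : ℂ}
    (hz : (map T)^[n] z = z)
    (hU : ∀ᶠ w in 𝓝 z, Tendsto (fun k : ℕ => (map T)^[n * k] w) atTop (𝓝 z)) :
    ‖deriv ((map T)^[n]) z‖ < 1 := by
  obtain ⟨R, hR1, hR⟩ := exists_R hT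
  obtain ⟨r, hr, hball⟩ := Metric.eventually_nhds_iff.1 hU
  set g := (map T)^[n] with hg
  have hgd : ∀ k : ℕ, Differentiable ℂ (g^[k]) := by
    intro k
    rw [hg, ← Function.iterate_mul]
    exact (map_diff T).iterate _
  have hgk : ∀ (k : ℕ) (w : ℂ), g^[k] w = (map T)^[n * k] w := by
    intro k w
    rw [hg, ← Function.iterate_mul]
  have hbd : ∀ w : ℂ, dist w z < r → ∀ k : ℕ, ‖g^[k] w‖ ≤ R := by
    intro w hw k
    by_contra hlt
    rw [not_le, hgk] at hlt
    have h1 := escapes_of hR1 hR hlt.le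
    have h2 : Tendsto (fun k : ℕ => ‖(map T)^[n * k] w‖) atTop atTop :=
      Tendsto.comp (g := fun m : ℕ => ‖(map T)^[m] w‖) h1
        (tendsto_id.const_mul_atTop' hn)
    have h3 := (hball hw).norm
    exact not_tendsto_nhds_of_tendsto_atTop h2 _ h3
  set ρ := r / 2 with hρ
  have hρ0 : 0 < ρ := by positivity
  have hcau : ∀ k : ℕ, (2 * Real.pi * Complex.I : ℂ)⁻¹ • ∮ w in C(z, ρ), ((w - z) ^ 2)⁻¹ • g^[k] w
      = (deriv g z) ^ k := by
    intro k
    rw [Complex.two_pi_I_inv_smul_circleIntegral_sub_sq_inv_smul_of_differentiable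
      (U := Set.univ) isOpen_univ (Set.subset_univ _) (hgd k).differentiableOn
      (Metric.mem_ball_self hρ0)]
    have h1 : HasDerivAt g (deriv g z) z := by
      have := (hgd 1).differentiableAt (x := z)
      rw [Function.iterate_one] at this
      exact this.hasDerivAt
    exact (HasDerivAt.iterate z h1 hz k).deriv
  have hlim : Tendsto (fun k : ℕ => (2 * Real.pi * Complex.I : ℂ)⁻¹ •
      ∮ w in C(z, ρ), ((w - z) ^ 2)⁻¹ • g^[k] w) atTop
      (𝓝 ((2 * Real.pi * Complex.I : ℂ)⁻¹ • ∮ w in C(z, ρ), ((w - z) ^ 2)⁻¹ • z)) := by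
    refine Tendsto.const_smul ?_ _
    unfold circleIntegral
    refine intervalIntegral.tendsto_integral_filter_of_dominated_convergence
      (fun _ => ρ * ((ρ ^ 2)⁻¹ * R)) ?_ ?_ ?_ ?_
    · refine Eventually.of_forall fun k => ?_
      refine Continuous.aestronglyMeasurable ?_
      have h1 : Continuous fun θ : ℝ => circleMap z ρ θ := continuous_circleMap z ρ
      have h2 : ∀ θ : ℝ, (circleMap z ρ θ - z) ^ 2 ≠ 0 := fun θ =>
        pow_ne_zero _ (sub_ne_zero.2 (circleMap_ne_center hρ0.ne'))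
      have h3 : Continuous fun θ : ℝ => ((circleMap z ρ θ - z) ^ 2)⁻¹ :=
        Continuous.inv₀ ((h1.sub continuous_const).pow 2) h2
      have h4 : Continuous fun θ : ℝ => g^[k] (circleMap z ρ θ) := (hgd k).continuous.comp h1
      have h5 : Continuous fun θ : ℝ => deriv (circleMap z ρ) θ := by
        simp only [deriv_circleMap]
        exact (continuous_circleMap 0 ρ).mul continuous_const
      exact h5.smul (h3.smul h4)
    · refine Eventually.of_forall fun k => Eventually.of_forall fun θ _ => ?_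
      have hd : dist (circleMap z ρ θ) z = ρ := by
        rw [dist_eq_norm, circleMap_sub_center, norm_circleMap_zero]; exact abs_of_pos hρ0
      have h1 : ‖g^[k] (circleMap z ρ θ)‖ ≤ R := hbd _ (by rw [hd]; linarith) k
      rw [norm_smul, norm_smul, norm_inv, norm_pow, ← dist_eq_norm, hd, deriv_circleMap, norm_mul,
        Complex.norm_I, mul_one, norm_circleMap_zero, abs_of_pos hρ0]
      gcongr
    · simp
    · refine Eventually.of_forall fun θ _ => ?_
      refine Tendsto.const_smul (Tendsto.const_smul ?_ _) _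
      have hd : dist (circleMap z ρ θ) z < r := by
        rw [dist_eq_norm, circleMap_sub_center, norm_circleMap_zero, abs_of_pos hρ0]; linarith
      refine (hball hd).congr fun k => (hgk k _).symm
  have hzero : (2 * Real.pi * Complex.I : ℂ)⁻¹ • ∮ w in C(z, ρ), ((w - z) ^ 2)⁻¹ • z = 0 := by
    rw [Complex.two_pi_I_inv_smul_circleIntegral_sub_sq_inv_smul_of_differentiable
      (U := Set.univ) isOpen_univ (Set.subset_univ _) (f := fun _ => z)
      (differentiable_const z).differentiableOn (Metric.mem_ball_self hρ0)]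
    simp
  rw [hzero] at hlim
  by_contra hge
  rw [not_lt] at hge
  have h1 : Tendsto (fun k : ℕ => ‖deriv g z‖ ^ k) atTop (𝓝 0) := by
    have h2 := (hlim.congr hcau).norm
    simpa using h2
  have h2 : ∀ k : ℕ, 1 ≤ ‖deriv g z‖ ^ k := fun k => one_le_pow₀ hge
  have h3 := ge_of_tendsto' h1 h2
  linarith

/-- Points close to an attracting fixed point converge to it. -/
theorem near_sink {g : ℂ → ℂ} {z : ℂ} (hd : DifferentiableAt ℂ g z) (hz : g z = z)
    (h1 : ‖deriv g z‖ < 1) : ∀ᶠ w in 𝓝 z, Tendsto (fun k : ℕ => g^[k] w) atTop (𝓝 z) := by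
  obtain ⟨q, hq1, hq2⟩ := exists_between h1
  have hq0 : 0 ≤ q := (norm_nonneg _).trans hq1.le
  have h2 := hd.hasDerivAt.isLittleO
  have h3 : ∀ᶠ w in 𝓝 z, ‖g w - z‖ ≤ q * ‖w - z‖ := by
    have h4 := h2.def (sub_pos.2 hq1)
    filter_upwards [h4] with w hw
    have h5 : g w - z = (g w - g z - (w - z) • deriv g z) + (w - z) • deriv g z := by
      rw [hz]; ring
    rw [h5]
    refine (norm_add_le _ _).trans ?_
    rw [norm_smul]
    nlinarith
  obtain ⟨δ, hδ, hb⟩ := Metric.eventually_nhds_iff.1 h3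
  filter_upwards [Metric.ball_mem_nhds z hδ] with w hw
  have hk : ∀ k : ℕ, ‖g^[k] w - z‖ ≤ q ^ k * ‖w - z‖ := by
    intro k
    induction k with
    | zero => simp
    | succ k ih =>
      rw [Function.iterate_succ_apply']
      have h6 : dist (g^[k] w) z < δ := by
        rw [dist_eq_norm]
        have h7 : ‖w - z‖ < δ := by rw [← dist_eq_norm]; exact hw
        have h8 : q ^ k ≤ 1 := pow_le_one₀ hq0 hq2.le
        nlinarith [norm_nonneg (w - z)]
      refine (hb h6).trans ?_
      rw [pow_succ]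
      nlinarith
  rw [tendsto_iff_norm_sub_tendsto_zero]
  have h0 : Tendsto (fun k : ℕ => q ^ k * ‖w - z‖) atTop (𝓝 0) := by
    simpa using (tendsto_pow_atTop_nhds_zero_of_lt_one hq0 hq2).mul_const ‖w - z‖
  exact squeeze_zero (fun k => norm_nonneg _) hk h0

section sphere

variable {T : Polynomial ℂ} {f : OnePoint ℂ → OnePoint ℂ}

theorem iter_coe (hf : ∀ z : ℂ, f (z : OnePoint ℂ) = ((map T z : ℂ) : OnePoint ℂ)) (k : ℕ)
    (z : ℂ) : f^[k] (z : OnePoint ℂ) = (((map T)^[k] z : ℂ) : OnePoint ℂ) := by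
  induction k with
  | zero => rfl
  | succ k ih => rw [Function.iterate_succ_apply', Function.iterate_succ_apply', ih, hf]

theorem tendsto_infty_iff {u : ℕ → ℂ} :
    Tendsto (fun k => ((u k : ℂ) : OnePoint ℂ)) atTop (𝓝 ∞) ↔
      Tendsto (fun k => ‖u k‖) atTop atTop := by
  rw [OnePoint.nhds_infty_eq]
  constructor
  · intro h
    have h1 : Tendsto (fun k => ((u k : ℂ) : OnePoint ℂ)) atTop
        (Filter.map (fun x : ℂ => (x : OnePoint ℂ)) (coclosedCompact ℂ)) := by
      rw [Filter.tendsto_def] at h ⊢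
      intro s hs
      have h2 := h (s ∪ {∞}) (by
        refine mem_sup.2 ⟨?_, ?_⟩
        · exact mem_of_superset hs Set.subset_union_left
        · simp)
      filter_upwards [h2] with k hk
      rcases hk with hk | hk
      · exact hk
      · exact absurd hk (OnePoint.coe_ne_infty _)
    have h3 : Tendsto u atTop (coclosedCompact ℂ) := by
      rw [Filter.tendsto_def] at h1 ⊢
      intro s hs
      have h2 := h1 ((fun x : ℂ => (x : OnePoint ℂ)) '' s) (Filter.image_mem_map hs)
      filter_upwards [h2] with k hk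
      obtain ⟨x, hx1, hx2⟩ := hk
      have h5 : x = u k := OnePoint.coe_injective hx2
      show u k ∈ s
      rw [← h5]; exact hx1
    rw [coclosedCompact_eq_cocompact, ← Metric.cobounded_eq_cocompact] at h3
    exact tendsto_norm_cobounded_atTop.comp h3
  · intro h
    have h1 : Tendsto u atTop (coclosedCompact ℂ) := by
      rw [coclosedCompact_eq_cocompact, ← Metric.cobounded_eq_cocompact]
      exact tendsto_norm_atTop_iff_cobounded.1 h
    exact (tendsto_map.comp h1).mono_right le_sup_left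

theorem map_infty (hT : 2 ≤ T.natDegree) (hc : Continuous f)
    (hf : ∀ z : ℂ, f (z : OnePoint ℂ) = ((map T z : ℂ) : OnePoint ℂ)) : f ∞ = ∞ := by
  obtain ⟨R, hR1, hR⟩ := exists_R hT
  have h1 : Tendsto (fun k : ℕ => (((k : ℂ) : ℂ) : OnePoint ℂ)) atTop (𝓝 ∞) := by
    rw [tendsto_infty_iff]
    simpa using tendsto_natCast_atTop_atTop (R := ℝ)
  have h2 : Tendsto (fun k : ℕ => f (((k : ℂ) : ℂ) : OnePoint ℂ)) atTop (𝓝 (f ∞)) :=
    (hc.tendsto ∞).comp h1
  have h3 : Tendsto (fun k : ℕ => f (((k : ℂ) : ℂ) : OnePoint ℂ)) atTop (𝓝 ∞) := by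
    simp only [hf]
    rw [tendsto_infty_iff]
    obtain ⟨k₀, hk₀⟩ := exists_nat_ge R
    refine tendsto_atTop_mono' _ ?_ (tendsto_natCast_atTop_atTop (R := ℝ))
    filter_upwards [eventually_ge_atTop k₀] with k hk
    have h4 : R ≤ ‖((k : ℂ) : ℂ)‖ := by
      rw [Complex.norm_natCast]
      exact hk₀.trans (by exact_mod_cast hk)
    have h5 := hR _ h4
    rw [Complex.norm_natCast] at h5
    have : (0 : ℝ) ≤ k := Nat.cast_nonneg k
    linarith
  exact tendsto_nhds_unique h2 h3

theorem near_infty (hT : 2 ≤ T.natDegree) (hc : Continuous f)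
    (hf : ∀ z : ℂ, f (z : OnePoint ℂ) = ((map T z : ℂ) : OnePoint ℂ)) :
    ∃ U ∈ 𝓝 (∞ : OnePoint ℂ), ∀ w ∈ U, Tendsto (fun k : ℕ => f^[1 * k] w) atTop (𝓝 ∞) := by
  obtain ⟨R, hR1, hR⟩ := exists_R hT
  have hinf := map_infty hT hc hf
  have hitinf : ∀ k : ℕ, f^[k] ∞ = ∞ := fun k => Function.iterate_fixed hinf k
  refine ⟨(fun x : ℂ => (x : OnePoint ℂ)) '' (Metric.closedBall 0 R)ᶜ ∪ {∞}, ?_, ?_⟩
  · rw [OnePoint.nhds_infty_eq]
    refine mem_sup.2 ⟨?_, by simp⟩
    refine mem_of_superset (Filter.image_mem_map ?_) Set.subset_union_left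
    rw [coclosedCompact_eq_cocompact]
    exact (isCompact_closedBall (0 : ℂ) R).compl_mem_cocompact
  · rintro w (⟨x, hx, rfl⟩ | rfl)
    · simp only [one_mul]
      have h1 : R ≤ ‖(map T)^[0] x‖ := by
        simp only [mem_compl_iff, Metric.mem_closedBall, dist_zero_right, not_le] at hx
        exact hx.le
      have h2 := escapes_of hR1 hR h1
      have h3 := tendsto_infty_iff.2 h2
      refine h3.congr fun k => (iter_coe hf k x).symm
    · simp only [one_mul, hitinf]
      exact tendsto_const_nhds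

/-- Finite critical points are critical points of the sphere map. -/
theorem not_inj (hf : ∀ z : ℂ, f (z : OnePoint ℂ) = ((map T z : ℂ) : OnePoint ℂ)) {c : ℂ}
    (hc : (Polynomial.derivative T).eval c = 0) :
    ¬ ∃ U ∈ 𝓝 (c : OnePoint ℂ), Set.InjOn f U := by
  rintro ⟨U, hU, hinj⟩
  have h1 : {y : ℂ | (y : OnePoint ℂ) ∈ U} ∈ 𝓝 c :=
    (OnePoint.continuous_coe (X := ℂ)).continuousAt.preimage_mem_nhds hU
  obtain ⟨δ, hδ, hball⟩ := Metric.mem_nhds_iff.1 h1
  have hinj' : Set.InjOn (map T) (Metric.ball c δ) := by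
    intro a ha b hb hab
    have h5 : f (a : OnePoint ℂ) = f (b : OnePoint ℂ) := by rw [hf a, hf b, hab]
    exact OnePoint.coe_injective (hinj (hball ha) (hball hb) h5)
  have h6 := Pool.Agent.Helper202.Univ.deriv_ne_zero Metric.isOpen_ball
    (map_diff T).differentiableOn hinj' (Metric.mem_ball_self hδ)
  apply h6
  show deriv (fun w => T.eval w) c = 0
  rw [Polynomial.deriv, hc]

theorem inj_of_ne (hf : ∀ z : ℂ, f (z : OnePoint ℂ) = ((map T z : ℂ) : OnePoint ℂ)) {c : ℂ}
    (hc : (Polynomial.derivative T).eval c ≠ 0) :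
    ∃ U ∈ 𝓝 (c : OnePoint ℂ), Set.InjOn f U := by
  obtain ⟨U, hU, hinj⟩ := injOn_of_deriv (g := map T) (T.hasStrictDerivAt c) hc
  refine ⟨(fun x : ℂ => (x : OnePoint ℂ)) '' U, ?_, ?_⟩
  · exact OnePoint.isOpenEmbedding_coe.image_mem_nhds.2 hU
  · rintro _ ⟨a, ha, rfl⟩ _ ⟨b, hb, rfl⟩ hab
    simp only [hf] at hab
    have := OnePoint.coe_injective hab
    rw [hinj ha hb this]

/-- Attraction in the plane and on the sphere. -/
theorem sinks_iff (hT : 2 ≤ T.natDegree) (hcont : Continuous f)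
    (hf : ∀ z : ℂ, f (z : OnePoint ℂ) = ((map T z : ℂ) : OnePoint ℂ)) (c : ℂ) :
    Sinks f (c : OnePoint ℂ) ↔ Escapes T c ∨ Attracted T c := by
  constructor
  · rintro ⟨z, n, hn, hz, ⟨U, hU, hUw⟩, hcz⟩
    obtain ⟨R, hR1, hR⟩ := exists_R hT
    simp only [iter_coe hf] at hcz
    induction z using OnePoint.rec with
    | infty =>
      left
      rw [tendsto_infty_iff] at hcz
      obtain ⟨k, hk⟩ := (hcz.eventually_ge_atTop R).exists
      exact escapes_of hR1 hR hk
    | coe z =>
      right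
      rw [iter_coe hf] at hz
      have hz' := OnePoint.coe_injective hz
      refine ⟨n, hn, z, hz', ?_, ?_⟩
      · refine mult_lt_one hT hn hz' ?_
        have h1 : {y : ℂ | (y : OnePoint ℂ) ∈ U} ∈ 𝓝 z :=
          (OnePoint.continuous_coe (X := ℂ)).continuousAt.preimage_mem_nhds hU
        filter_upwards [h1] with w hw
        have h2 := hUw _ hw
        simp only [iter_coe hf] at h2
        exact (OnePoint.isOpenEmbedding_coe.isInducing.tendsto_nhds_iff).2 h2
      · exact (OnePoint.isOpenEmbedding_coe.isInducing.tendsto_nhds_iff).2 hcz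
  · rintro (h | ⟨n, hn, x, hx, hd, ht⟩)
    · refine ⟨∞, 1, one_pos, ?_, near_infty hT hcont hf, ?_⟩
      · rw [Function.iterate_one]; exact map_infty hT hcont hf
      · simp only [one_mul]
        refine (tendsto_infty_iff.2 h).congr fun k => (iter_coe hf k c).symm
    · refine ⟨(x : OnePoint ℂ), n, hn, ?_, ?_, ?_⟩
      · rw [iter_coe hf, hx]
      · have h1 := near_sink (g := (map T)^[n]) ((map_diff T).iterate n).differentiableAt hx hd
        refine ⟨(fun y : ℂ => (y : OnePoint ℂ)) ''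
          {w | Tendsto (fun k : ℕ => ((map T)^[n])^[k] w) atTop (𝓝 x)}, ?_, ?_⟩
        · exact OnePoint.isOpenEmbedding_coe.image_mem_nhds.2 h1
        · rintro _ ⟨w, hw, rfl⟩
          simp only [iter_coe hf]
          have h2 : Tendsto (fun k : ℕ => (map T)^[n * k] w) atTop (𝓝 x) := by
            refine (hw : Tendsto _ _ _).congr fun k => ?_
            rw [← Function.iterate_mul]
          exact ((OnePoint.continuous_coe (X := ℂ)).tendsto x).comp h2
      · simp only [iter_coe hf]
        exact ((OnePoint.continuous_coe (X := ℂ)).tendsto x).comp ht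

end sphere

/-- The two definitions of hyperbolicity agree. -/
theorem hyp_iff {T : Polynomial ℂ} (hT : 2 ≤ T.natDegree) : Hyp T 1 ↔ Hyperbolic T := by
  constructor
  · rintro ⟨-, f, hc, hf, hs⟩ c hcr
    have hf' : ∀ z : ℂ, f (z : OnePoint ℂ) = ((map T z : ℂ) : OnePoint ℂ) := by
      intro z
      rw [hf z (by simp)]
      simp [map]
    exact (sinks_iff hT hc hf' c).1 (hs _ (not_inj hf' hcr))
  · intro h
    obtain ⟨f, hfm⟩ := Pool.Agent.TH864.ZO.exists_isM (P := T) (Q := 1) isCoprime_one_right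
      (D := max T.natDegree (1 : Polynomial ℂ).natDegree) rfl (by simp; omega) (n := 1) one_pos
      (s := 1) one_ne_zero
    have hcont := hfm.cont
    have hf' : ∀ z : ℂ, f (z : OnePoint ℂ) = ((map T z : ℂ) : OnePoint ℂ) := by
      intro z
      have h1 := hfm.eval z (by simp [Pool.Agent.TH864.ZO.sc_one])
      rw [h1, Pool.Agent.TH864.ZO.sc_one, Pool.Agent.TH864.ZO.sc_one]
      simp [map]
    refine ⟨isCoprime_one_right, f, hcont, ?_, ?_⟩
    · intro z _
      rw [hf' z]
      simp [map]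
    · intro c hnot
      induction c using OnePoint.rec with
      | infty =>
        refine ⟨∞, 1, one_pos, ?_, near_infty hT hcont hf', ?_⟩
        · rw [Function.iterate_one]; exact map_infty hT hcont hf'
        · have := Function.iterate_fixed (map_infty hT hcont hf')
          simp only [one_mul, this]
          exact tendsto_const_nhds
      | coe c =>
        refine (sinks_iff hT hcont hf' c).2 (h c ?_)
        by_contra h0
        exact hnot (inj_of_ne hf' h0)

end Pool.Agent.Q186.Hyp
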